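import Mathlib
import Pool.Agent.H89.Interp

set_option autoImplicit false

namespace Pool.Agent.Results.MP_6e3e44_an.Interp

open MeasureTheory
open scoped ENNReal NNReal

theorem result (β γ α : ℝ≥0∞) (h1 : 1 ≤ β) (h2 : β < γ) (h3 : γ < α) (h4 : α < ∞)
    (μ : Measure ℝ) (hμ : μ = volume.restrict (Set.Icc 0 1)) :
    ∃ C : ℝ≥0, 0 < C ∧ ∀ (U : Lp ℂ β μ → Lp ℂ β μ) (M₀ M₁ : ℝ≥0),
      (∀ x : Lp ℂ β μ, MemLp x α μ → MemLp (U x) α μ) →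
      (∀ x y : Lp ℂ β μ, eLpNorm (U x - U y) β μ ≤ M₀ * eLpNorm (x - y) β μ) →
      (∀ x y : Lp ℂ β μ, MemLp x α μ → MemLp y α μ →
        eLpNorm (U x - U y) α μ ≤ M₁ * eLpNorm (x - y) α μ) →
      (∀ x : Lp ℂ β μ, MemLp x γ μ → MemLp (U x) γ μ) ∧
      ∀ x y : Lp ℂ β μ, MemLp x γ μ → MemLp y γ μ →
        eLpNorm (U x - U y) γ μ ≤ C * max M₀ M₁ * eLpNorm (x - y) γ μ := by
  have : IsFiniteMeasure μ := hμ ▸ inferInstance
  obtain ⟨C, hC, H⟩ := H89.Interp.strong (μ := μ) (pos_of_gt (one_pos.trans_le h1)).ne' h2 h3 h4.ne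
  refine ⟨C, hC, fun U M₀ M₁ k0 k1 k2 => ?_⟩
  have e : ∀ (x y : Lp ℂ β μ) p, eLpNorm (x - y) p μ = eLpNorm (⇑x - ⇑y) p μ := fun x y p =>
    eLpNorm_congr_ae (Lp.coeFn_sub x y)
  simp only [e] at k1 k2 ⊢
  have := H U (max M₀ M₁)
    (fun x y => (k1 x y).trans (mul_le_mul_left (by exact_mod_cast le_max_left _ _) _))
    fun x y hx hy => (k2 x y hx hy).trans (mul_le_mul_left (by exact_mod_cast le_max_right _ _) _)
  refine ⟨fun x hx => ?_, fun x y _ _ => this x y⟩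
  have z : ∀ p, MemLp (0 : Lp ℂ β μ) p μ := fun p => MemLp.zero.ae_eq (Lp.coeFn_zero ℂ β μ).symm
  have m : MemLp (⇑(U x) - ⇑(U 0)) γ μ := ⟨(Lp.memLp _).1.sub (Lp.memLp _).1, (this x 0).trans_lt
    (ENNReal.mul_lt_top (ENNReal.mul_lt_top (by simp) (by simp)) (hx.sub (z γ)).2)⟩
  simpa using m.add ((k0 0 (z α)).mono_exponent h3.le)

end Pool.Agent.Results.MP_6e3e44_an.Interp
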